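import Pool.Agent.Helper91K1.PQ.Stm
import Pool.Agent.R105.GD.Pairs

/-!
# PQ/SM: the second moment in an interval (written by helper18)

It uses the upper bound sieve `Pool.Agent.Y949.DK.t_SV` and the average `Pool.Agent.R105.GD.exp_avg`.
-/

set_option autoImplicit false

namespace Pool.Agent.Hx18.PQ

open Finset Filter Topology Pool.Agent.Y851.DK Pool.Agent.R105.GD Pool.Agent.Helper91K1.PQ

lemma sum_four {ι : Type} [DecidableEq ι] {a b c d : ι} (h1 : a ≠ b) (h2 : a ≠ c) (h3 : a ≠ d)
    (h4 : b ≠ c) (h5 : b ≠ d) (h6 : c ≠ d) (f : ι → ℝ) :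
    ∑ x ∈ ({a, b, c, d} : Finset ι), f x = f a + f b + f c + f d := by
  rw [sum_insert (by simp [h1, h2, h3]), sum_insert (by simp [h4, h5]), sum_pair h6]
  ring

lemma sum_inj_le (s t : Finset ℕ) (φ : ℕ → ℕ) (f : ℕ → ℝ) (hf : ∀ x, 0 ≤ f x)
    (hm : ∀ x ∈ s, φ x ∈ t) (hi : ∀ x ∈ s, ∀ y ∈ s, φ x = φ y → x = y) :
    ∑ x ∈ s, f (φ x) ≤ ∑ y ∈ t, f y := by
  rw [← sum_image (f := f) (g := φ) (s := s) (fun x hx y hy h => hi x hx y hy h)]
  apply sum_le_sum_of_subset_of_nonneg
  · intro y hy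
    obtain ⟨x, hx, rfl⟩ := mem_image.1 hy
    exact hm x hx
  · intro y _ _
    exact hf y

/-- one pair of primes -/
lemma two : ∃ C : ℝ, 1 ≤ C ∧ ∃ L₀ : ℕ, ∀ L : ℕ, L₀ ≤ L → ∀ a j : ℕ, 1 ≤ j → j ≤ a →
    (((Ioc a (a + L)).filter (fun m => (m - j).Prime ∧ (m + j).Prime)).card : ℝ) ≤
      C * Real.exp (C * sg j) * (L / Real.log L ^ 2) := by
  obtain ⟨C, hC, hh⟩ := Pool.Agent.Y949.DK.t_SV 2
  have h2 := (tendsto_natCast_atTop_atTop (R := ℝ)).eventually hh
  obtain ⟨L₀, hL₀⟩ := eventually_atTop.1 h2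
  refine ⟨2 * C * Real.exp C, ?_, max L₀ 2, ?_⟩
  · have h1 := Real.one_le_exp (by linarith : 0 ≤ C)
    nlinarith
  intro L hL a j hj hja
  have hL2 : 2 ≤ L := le_trans (le_max_right _ _) hL
  have hX := hL₀ L (le_trans (le_max_left _ _) hL)
  set F : Finset (ℤ × ℤ) := {(1, (a : ℤ) - j), (1, (a : ℤ) + j)} with hF
  have hne : ((1 : ℤ), (a : ℤ) - j) ≠ (1, (a : ℤ) + j) := by
    intro h0
    have := congrArg Prod.snd h0
    simp only at this
    omega
  have hL2' : (2 : ℝ) ≤ L := by exact_mod_cast hL2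
  have h3 := hX F (by rw [hF, card_pair hne]) (by
      intro f hf
      rw [hF, mem_insert, mem_singleton] at hf
      rcases hf with rfl | rfl <;> simp) (by
      intro f hf g hg hfg
      rw [hF, mem_insert, mem_singleton] at hf hg
      rcases hf with rfl | rfl <;> rcases hg with rfl | rfl
      · exact absurd rfl hfg
      · simp only; omega
      · simp only; omega
      · exact absurd rfl hfg)
  rw [Nat.floor_natCast] at h3
  have hlog : 0 < Real.log L := Real.log_pos (by linarith)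
  have hY : 0 < (L : ℝ) / Real.log L ^ 2 := by positivity
  have hs1 : sg 1 = 0 := by unfold sg; simp
  have hs0 : sg 0 = 0 := by unfold sg; simp
  have hsum : ∑ f ∈ F, sg f.1.natAbs + ∑ f ∈ F, ∑ g ∈ F,
      sg (f.1 * g.2 - g.1 * f.2).natAbs ≤ 1 + 2 * sg j := by
    rw [hF, sum_pair hne, sum_pair hne, sum_pair hne, sum_pair hne]
    simp only [Int.natAbs_one, one_mul, sub_self, Int.natAbs_zero, hs1, hs0]
    have e1 : ((a : ℤ) + j - (a - j)).natAbs = 2 * j := by omega
    have e2 : ((a : ℤ) - j - (a + j)).natAbs = 2 * j := by omega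
    rw [e1, e2]
    have := sg_double j hj
    linarith
  have hcard : (((Ioc a (a + L)).filter (fun m => (m - j).Prime ∧ (m + j).Prime)).card : ℝ) ≤
      (((Icc 1 L).filter (fun n : ℕ => ∀ f ∈ F, (f.1 * (n : ℤ) + f.2).toNat.Prime)).card : ℝ) := by
    rw [Nat.cast_le]
    apply card_le_card_of_injOn (fun m => m - a)
    · intro m hm
      rw [mem_coe, mem_filter, mem_Ioc] at hm
      rw [mem_coe, mem_filter, mem_Icc]
      have q1 : 1 ≤ m - a := by omega
      have q2 : m - a ≤ L := by omega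
      refine ⟨⟨q1, q2⟩, fun f hf => ?_⟩
      rw [hF, mem_insert, mem_singleton] at hf
      rcases hf with rfl | rfl
      · have : ((1 : ℤ) * ((m - a : ℕ) : ℤ) + ((a : ℤ) - j)).toNat = m - j := by omega
        simp only [this]
        exact hm.2.1
      · have : ((1 : ℤ) * ((m - a : ℕ) : ℤ) + ((a : ℤ) + j)).toNat = m + j := by omega
        simp only [this]
        exact hm.2.2
    · intro x hx y hy hxy
      rw [mem_coe, mem_filter, mem_Ioc] at hx hy
      simp only at hxy
      omega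
  refine hcard.trans (h3.trans ?_)
  apply mul_le_mul_of_nonneg_right _ hY.le
  have hsg := sg_nonneg j
  calc C * Real.exp (C * (∑ f ∈ F, sg f.1.natAbs + ∑ f ∈ F, ∑ g ∈ F,
        sg (f.1 * g.2 - g.1 * f.2).natAbs))
      ≤ C * Real.exp (C * (1 + 2 * sg j)) := by
        apply mul_le_mul_of_nonneg_left _ (by linarith)
        apply Real.exp_le_exp.2
        exact mul_le_mul_of_nonneg_left hsum (by linarith)
    _ = C * (Real.exp C * Real.exp (2 * C * sg j)) := by
        rw [← Real.exp_add]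
        congr 2
        ring
    _ ≤ (2 * C * Real.exp C) * Real.exp (2 * C * Real.exp C * sg j) := by
        have h5 : Real.exp (2 * C * sg j) ≤ Real.exp (2 * C * Real.exp C * sg j) := by
          apply Real.exp_le_exp.2
          apply mul_le_mul_of_nonneg_right _ hsg
          have := Real.one_le_exp (by linarith : 0 ≤ C)
          nlinarith
        have h6 : 0 < Real.exp C := Real.exp_pos _
        have h7 : 0 < Real.exp (2 * C * sg j) := Real.exp_pos _
        calc C * (Real.exp C * Real.exp (2 * C * sg j))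
            = (C * Real.exp C) * Real.exp (2 * C * sg j) := by ring
          _ ≤ (2 * C * Real.exp C) * Real.exp (2 * C * Real.exp C * sg j) := by
              apply mul_le_mul _ h5 h7.le (by positivity)
              nlinarith [mul_pos (by linarith : 0 < C) h6]

/-- AM-GM for four exponentials -/
lemma exp_four (x y z t : ℝ) :
    Real.exp (x + y + z + t) ≤ Real.exp (4 * x) + Real.exp (4 * y) + Real.exp (4 * z) + Real.exp (4 * t) := by
  have h : ∀ s u : ℝ, s ≤ u → Real.exp s ≤ Real.exp u := fun s u h => Real.exp_le_exp.2 h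
  have p1 := Real.exp_pos (4 * x)
  have p2 := Real.exp_pos (4 * y)
  have p3 := Real.exp_pos (4 * z)
  have p4 := Real.exp_pos (4 * t)
  rcases le_total x y with h1 | h1 <;> rcases le_total z t with h2 | h2
  · rcases le_total y t with h3 | h3
    · have := h (x + y + z + t) (4 * t) (by linarith)
      linarith
    · have := h (x + y + z + t) (4 * y) (by linarith)
      linarith
  · rcases le_total y z with h3 | h3
    · have := h (x + y + z + t) (4 * z) (by linarith)
      linarith
    · have := h (x + y + z + t) (4 * y) (by linarith)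
      linarith
  · rcases le_total x t with h3 | h3
    · have := h (x + y + z + t) (4 * t) (by linarith)
      linarith
    · have := h (x + y + z + t) (4 * x) (by linarith)
      linarith
  · rcases le_total x z with h3 | h3
    · have := h (x + y + z + t) (4 * z) (by linarith)
      linarith
    · have := h (x + y + z + t) (4 * x) (by linarith)
      linarith

/-- two pairs of primes -/
lemma four : ∃ C : ℝ, 1 ≤ C ∧ ∃ L₀ : ℕ, ∀ L : ℕ, L₀ ≤ L → ∀ a j k : ℕ, 1 ≤ j → 1 ≤ k → j ≠ k →
    j ≤ a → k ≤ a →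
    (((Ioc a (a + L)).filter (fun m => ((m - j).Prime ∧ (m + j).Prime) ∧
      ((m - k).Prime ∧ (m + k).Prime))).card : ℝ) ≤
      C * (Real.exp (C * sg j) + Real.exp (C * sg k) + Real.exp (C * sg ((j : ℤ) - k).natAbs) +
        Real.exp (C * sg (j + k))) * (L / Real.log L ^ 4) := by
  obtain ⟨C, hC, hh⟩ := Pool.Agent.Y949.DK.t_SV 4
  have h2 := (tendsto_natCast_atTop_atTop (R := ℝ)).eventually hh
  obtain ⟨L₀, hL₀⟩ := eventually_atTop.1 h2
  refine ⟨16 * C * Real.exp (2 * C), ?_, max L₀ 2, ?_⟩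
  · have h1 := Real.one_le_exp (by linarith : 0 ≤ 2 * C)
    nlinarith
  intro L hL a j k hj hk hjk hja hka
  have hL2 : 2 ≤ L := le_trans (le_max_right _ _) hL
  have hX := hL₀ L (le_trans (le_max_left _ _) hL)
  set F : Finset (ℤ × ℤ) := {(1, (a : ℤ) - j), (1, (a : ℤ) + j), (1, (a : ℤ) - k), (1, (a : ℤ) + k)}
    with hF
  have hne : ∀ x y : ℤ, x ≠ y → ((1 : ℤ), x) ≠ (1, y) := fun x y h h0 => h (congrArg Prod.snd h0)
  have n1 := hne ((a : ℤ) - j) ((a : ℤ) + j) (by omega)
  have n2 := hne ((a : ℤ) - j) ((a : ℤ) - k) (by omega)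
  have n3 := hne ((a : ℤ) - j) ((a : ℤ) + k) (by omega)
  have n4 := hne ((a : ℤ) + j) ((a : ℤ) - k) (by omega)
  have n5 := hne ((a : ℤ) + j) ((a : ℤ) + k) (by omega)
  have n6 := hne ((a : ℤ) - k) ((a : ℤ) + k) (by omega)
  have hL2' : (2 : ℝ) ≤ L := by exact_mod_cast hL2
  have hfst : ∀ f ∈ F, f.1 = 1 := by
    intro f hf
    rw [hF, mem_insert, mem_insert, mem_insert, mem_singleton] at hf
    rcases hf with rfl | rfl | rfl | rfl <;> rfl
  have h3 := hX F (by
      rw [hF, card_insert_of_notMem (by simp only [mem_insert, mem_singleton, not_or]; exact ⟨n1, n2, n3⟩),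
        card_insert_of_notMem (by simp only [mem_insert, mem_singleton, not_or]; exact ⟨n4, n5⟩),
        card_pair n6]) (by
      intro f hf
      rw [hfst f hf]
      norm_num) (by
      intro f hf g hg hfg h0
      rw [hfst f hf, hfst g hg] at h0
      apply hfg
      apply Prod.ext
      · rw [hfst f hf, hfst g hg]
      · omega)
  rw [Nat.floor_natCast] at h3
  have hlog : 0 < Real.log L := Real.log_pos (by linarith)
  have hY : 0 < (L : ℝ) / Real.log L ^ 4 := by positivity
  have hs1 : sg 1 = 0 := by unfold sg; simp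
  have hs0 : sg 0 = 0 := by unfold sg; simp
  have hsum : ∑ f ∈ F, sg f.1.natAbs + ∑ f ∈ F, ∑ g ∈ F,
      sg (f.1 * g.2 - g.1 * f.2).natAbs ≤
        2 + 2 * sg j + 2 * sg k + 4 * sg ((j : ℤ) - k).natAbs + 4 * sg (j + k) := by
    rw [hF, sum_four n1 n2 n3 n4 n5 n6, sum_four n1 n2 n3 n4 n5 n6, sum_four n1 n2 n3 n4 n5 n6,
      sum_four n1 n2 n3 n4 n5 n6, sum_four n1 n2 n3 n4 n5 n6, sum_four n1 n2 n3 n4 n5 n6]
    simp only [Int.natAbs_one, one_mul, sub_self, Int.natAbs_zero, hs1, hs0]
    have e1 : ((a : ℤ) + j - (a - j)).natAbs = 2 * j := by omega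
    have e2 : ((a : ℤ) - k - (a - j)).natAbs = ((j : ℤ) - k).natAbs := by omega
    have e3 : ((a : ℤ) + k - (a - j)).natAbs = j + k := by omega
    have e4 : ((a : ℤ) - j - (a + j)).natAbs = 2 * j := by omega
    have e5 : ((a : ℤ) - k - (a + j)).natAbs = j + k := by omega
    have e6 : ((a : ℤ) + k - (a + j)).natAbs = ((j : ℤ) - k).natAbs := by omega
    have e7 : ((a : ℤ) - j - (a - k)).natAbs = ((j : ℤ) - k).natAbs := by omega
    have e8 : ((a : ℤ) + j - (a - k)).natAbs = j + k := by omega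
    have e9 : ((a : ℤ) + k - (a - k)).natAbs = 2 * k := by omega
    have e10 : ((a : ℤ) - j - (a + k)).natAbs = j + k := by omega
    have e11 : ((a : ℤ) + j - (a + k)).natAbs = ((j : ℤ) - k).natAbs := by omega
    have e12 : ((a : ℤ) - k - (a + k)).natAbs = 2 * k := by omega
    rw [e1, e2, e3, e4, e5, e6, e7, e8, e9, e10, e11, e12]
    have := sg_double j hj
    have := sg_double k hk
    linarith
  have hcard : (((Ioc a (a + L)).filter (fun m => ((m - j).Prime ∧ (m + j).Prime) ∧
      ((m - k).Prime ∧ (m + k).Prime))).card : ℝ) ≤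
      (((Icc 1 L).filter (fun n : ℕ => ∀ f ∈ F, (f.1 * (n : ℤ) + f.2).toNat.Prime)).card : ℝ) := by
    rw [Nat.cast_le]
    apply card_le_card_of_injOn (fun m => m - a)
    · intro m hm
      rw [mem_coe, mem_filter, mem_Ioc] at hm
      rw [mem_coe, mem_filter, mem_Icc]
      have q1 : 1 ≤ m - a := by omega
      have q2 : m - a ≤ L := by omega
      refine ⟨⟨q1, q2⟩, fun f hf => ?_⟩
      rw [hF, mem_insert, mem_insert, mem_insert, mem_singleton] at hf
      rcases hf with rfl | rfl | rfl | rfl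
      · have : ((1 : ℤ) * ((m - a : ℕ) : ℤ) + ((a : ℤ) - j)).toNat = m - j := by omega
        simp only [this]
        exact hm.2.1.1
      · have : ((1 : ℤ) * ((m - a : ℕ) : ℤ) + ((a : ℤ) + j)).toNat = m + j := by omega
        simp only [this]
        exact hm.2.1.2
      · have : ((1 : ℤ) * ((m - a : ℕ) : ℤ) + ((a : ℤ) - k)).toNat = m - k := by omega
        simp only [this]
        exact hm.2.2.1
      · have : ((1 : ℤ) * ((m - a : ℕ) : ℤ) + ((a : ℤ) + k)).toNat = m + k := by omega
        simp only [this]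
        exact hm.2.2.2
    · intro x hx y hy hxy
      rw [mem_coe, mem_filter, mem_Ioc] at hx hy
      simp only at hxy
      omega
  refine hcard.trans (h3.trans ?_)
  apply mul_le_mul_of_nonneg_right _ hY.le
  have g1 := sg_nonneg j
  have g2 := sg_nonneg k
  have g3 := sg_nonneg ((j : ℤ) - k).natAbs
  have g4 := sg_nonneg (j + k)
  have hE : 1 ≤ Real.exp (2 * C) := Real.one_le_exp (by linarith)
  have hC' : 16 * C ≤ 16 * C * Real.exp (2 * C) := by nlinarith
  have hmono : ∀ s : ℝ, 0 ≤ s → Real.exp (16 * C * s) ≤ Real.exp (16 * C * Real.exp (2 * C) * s) :=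
    fun s hs => Real.exp_le_exp.2 (mul_le_mul_of_nonneg_right hC' hs)
  have hmono' : ∀ s : ℝ, 0 ≤ s → Real.exp (8 * C * s) ≤ Real.exp (16 * C * Real.exp (2 * C) * s) :=
    fun s hs => Real.exp_le_exp.2 (mul_le_mul_of_nonneg_right (by linarith) hs)
  calc C * Real.exp (C * (∑ f ∈ F, sg f.1.natAbs + ∑ f ∈ F, ∑ g ∈ F,
        sg (f.1 * g.2 - g.1 * f.2).natAbs))
      ≤ C * Real.exp (C * (2 + 2 * sg j + 2 * sg k + 4 * sg ((j : ℤ) - k).natAbs + 4 * sg (j + k))) := by
        apply mul_le_mul_of_nonneg_left _ (by linarith)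
        apply Real.exp_le_exp.2
        exact mul_le_mul_of_nonneg_left hsum (by linarith)
    _ = C * Real.exp (2 * C) * Real.exp (2 * C * sg j + 2 * C * sg k +
          4 * C * sg ((j : ℤ) - k).natAbs + 4 * C * sg (j + k)) := by
        rw [mul_assoc, ← Real.exp_add]
        congr 2
        ring
    _ ≤ C * Real.exp (2 * C) * (Real.exp (16 * C * Real.exp (2 * C) * sg j) +
          Real.exp (16 * C * Real.exp (2 * C) * sg k) +
          Real.exp (16 * C * Real.exp (2 * C) * sg ((j : ℤ) - k).natAbs) +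
          Real.exp (16 * C * Real.exp (2 * C) * sg (j + k))) := by
        apply mul_le_mul_of_nonneg_left _ (by positivity)
        refine (exp_four _ _ _ _).trans ?_
        have f1 := hmono' _ g1
        have f2 := hmono' _ g2
        have f3 := hmono _ g3
        have f4 := hmono _ g4
        have q1 : 4 * (2 * C * sg j) = 8 * C * sg j := by ring
        have q2 : 4 * (2 * C * sg k) = 8 * C * sg k := by ring
        have q3 : 4 * (4 * C * sg ((j : ℤ) - k).natAbs) = 16 * C * sg ((j : ℤ) - k).natAbs := by ring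
        have q4 : 4 * (4 * C * sg (j + k)) = 16 * C * sg (j + k) := by ring
        rw [q1, q2, q3, q4]
        linarith
    _ ≤ 16 * C * Real.exp (2 * C) * (Real.exp (16 * C * Real.exp (2 * C) * sg j) +
          Real.exp (16 * C * Real.exp (2 * C) * sg k) +
          Real.exp (16 * C * Real.exp (2 * C) * sg ((j : ℤ) - k).natAbs) +
          Real.exp (16 * C * Real.exp (2 * C) * sg (j + k))) := by
        apply mul_le_mul_of_nonneg_right _ (by positivity)
        nlinarith [mul_pos (by linarith : 0 < C) (Real.exp_pos (2 * C))]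

/-- the average over the second variable -/
lemma inner (c K : ℝ) (hK : 1 ≤ K)
    (h : ∀ M : ℕ, ∑ x ∈ Icc 1 M, Real.exp (c * sg x) ≤ K * M) (H j : ℕ) (hj : j ∈ Icc 1 H) :
    ∑ k ∈ Icc 1 H, (Real.exp (c * sg j) + Real.exp (c * sg k) +
      Real.exp (c * sg ((j : ℤ) - k).natAbs) + Real.exp (c * sg (j + k))) ≤
      H * Real.exp (c * sg j) + 6 * K * H := by
  rw [mem_Icc] at hj
  have hpos : ∀ x : ℕ, 0 ≤ Real.exp (c * sg x) := fun x => (Real.exp_pos _).le
  rw [sum_add_distrib, sum_add_distrib, sum_add_distrib, sum_const, Nat.card_Icc, nsmul_eq_mul]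
  have h1 := h H
  have h2 : ∑ k ∈ Icc 1 H, Real.exp (c * sg (j + k)) ≤ K * ((2 * H : ℕ) : ℝ) := by
    refine le_trans ?_ (h (2 * H))
    exact sum_inj_le (Icc 1 H) (Icc 1 (2 * H)) (fun k => j + k) (fun x => Real.exp (c * sg x)) hpos
      (fun x hx => by rw [mem_Icc] at hx ⊢; omega) (fun x _ y _ hxy => by omega)
  have h3 : ∑ k ∈ Icc 1 H, Real.exp (c * sg ((j : ℤ) - k).natAbs) ≤ K * H + K * H + H := by
    have e1 : ∑ k ∈ (Icc 1 H).filter (fun k => k < j), Real.exp (c * sg ((j : ℤ) - k).natAbs) ≤ K * H := by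
      refine le_trans ?_ (h H)
      exact sum_inj_le _ (Icc 1 H) (fun k => ((j : ℤ) - k).natAbs) (fun x => Real.exp (c * sg x)) hpos
        (fun x hx => by rw [mem_filter, mem_Icc] at hx; rw [mem_Icc]; omega)
        (fun x hx y hy hxy => by rw [mem_filter, mem_Icc] at hx hy; omega)
    have e2 : ∑ k ∈ (Icc 1 H).filter (fun k => ¬ k < j), Real.exp (c * sg ((j : ℤ) - k).natAbs) ≤
        K * H + H := by
      have e3 : ∑ k ∈ ((Icc 1 H).filter (fun k => ¬ k < j)).filter (fun k => j < k),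
          Real.exp (c * sg ((j : ℤ) - k).natAbs) ≤ K * H := by
        refine le_trans ?_ (h H)
        exact sum_inj_le _ (Icc 1 H) (fun k => ((j : ℤ) - k).natAbs) (fun x => Real.exp (c * sg x)) hpos
          (fun x hx => by rw [mem_filter, mem_filter, mem_Icc] at hx; rw [mem_Icc]; omega)
          (fun x hx y hy hxy => by rw [mem_filter, mem_filter, mem_Icc] at hx hy; omega)
      have e4 : ∑ k ∈ ((Icc 1 H).filter (fun k => ¬ k < j)).filter (fun k => ¬ j < k),
          Real.exp (c * sg ((j : ℤ) - k).natAbs) ≤ H := by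
        calc _ ≤ ∑ k ∈ ((Icc 1 H).filter (fun k => ¬ k < j)).filter (fun k => ¬ j < k), (1 : ℝ) := by
              apply sum_le_sum
              intro k hk
              rw [mem_filter, mem_filter] at hk
              have : ((j : ℤ) - k).natAbs = 0 := by omega
              rw [this]
              have hs0 : sg 0 = 0 := by unfold sg; simp
              rw [hs0, mul_zero, Real.exp_zero]
          _ ≤ ∑ k ∈ Icc 1 H, (1 : ℝ) := by
              apply sum_le_sum_of_subset_of_nonneg
              · exact (filter_subset _ _).trans (filter_subset _ _)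
              · intro _ _ _
                norm_num
          _ = H := by simp
      rw [← sum_filter_add_sum_filter_not _ (fun k => j < k)]
      linarith
    rw [← sum_filter_add_sum_filter_not _ (fun k => k < j)]
    linarith
  have hH : (0 : ℝ) ≤ H := by positivity
  have e5 : ((H + 1 - 1 : ℕ) : ℝ) = H := by
    rw [Nat.add_sub_cancel]
  rw [e5]
  push_cast at h2
  nlinarith

theorem t_SM : S_SM := by
  obtain ⟨C₂, hC₂, L₂, h₂⟩ := two
  obtain ⟨C₄, hC₄, L₄, h₄⟩ := four
  obtain ⟨K₂, hK₂, k₂⟩ := exp_avg C₂ (by linarith)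
  obtain ⟨K₄, hK₄, k₄⟩ := exp_avg C₄ (by linarith)
  refine ⟨C₂ * K₂ + 7 * C₄ * K₄, by positivity, max (max L₂ L₄) 2, ?_⟩
  intro L hL a ha _ H hH
  have hL2 : L₂ ≤ L := le_trans (le_trans (le_max_left _ _) (le_max_left _ _)) hL
  have hL4 : L₄ ≤ L := le_trans (le_trans (le_max_right _ _) (le_max_left _ _)) hL
  have hLge : 2 ≤ L := le_trans (le_max_right _ _) hL
  have hLr : (2 : ℝ) ≤ L := by exact_mod_cast hLge
  have hlog : 0 < Real.log L := Real.log_pos (by linarith)
  have hY2 : 0 < (L : ℝ) / Real.log L ^ 2 := by positivity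
  have hY4 : 0 < (L : ℝ) / Real.log L ^ 4 := by positivity
  have hHr : (0 : ℝ) ≤ H := by positivity
  have hrp : ∀ m, (rp H m : ℝ) = ∑ j ∈ Icc 1 H, (if (m - j).Prime ∧ (m + j).Prime then (1 : ℝ) else 0) := by
    intro m
    unfold rp
    rw [card_filter]
    push_cast
    rfl
  have hsq : ∑ m ∈ Ioc a (a + L), (rp H m : ℝ) ^ 2 =
      ∑ j ∈ Icc 1 H, ∑ k ∈ Icc 1 H, (((Ioc a (a + L)).filter (fun m =>
        ((m - j).Prime ∧ (m + j).Prime) ∧ ((m - k).Prime ∧ (m + k).Prime))).card : ℝ) := by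
    calc ∑ m ∈ Ioc a (a + L), (rp H m : ℝ) ^ 2
        = ∑ m ∈ Ioc a (a + L), ∑ j ∈ Icc 1 H, ∑ k ∈ Icc 1 H,
            (if ((m - j).Prime ∧ (m + j).Prime) ∧ ((m - k).Prime ∧ (m + k).Prime) then (1 : ℝ) else 0) := by
          apply sum_congr rfl
          intro m _
          rw [hrp m, sq, sum_mul_sum]
          apply sum_congr rfl
          intro j _
          apply sum_congr rfl
          intro k _
          by_cases c1 : (m - j).Prime ∧ (m + j).Prime <;> by_cases c2 : (m - k).Prime ∧ (m + k).Prime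
          · rw [if_pos c1, if_pos c2, if_pos ⟨c1, c2⟩, one_mul]
          · rw [if_pos c1, if_neg c2, if_neg (fun c => c2 c.2), mul_zero]
          · rw [if_neg c1, zero_mul, if_neg (fun c => c1 c.1)]
          · rw [if_neg c1, zero_mul, if_neg (fun c => c1 c.1)]
      _ = ∑ j ∈ Icc 1 H, ∑ k ∈ Icc 1 H, ∑ m ∈ Ioc a (a + L),
            (if ((m - j).Prime ∧ (m + j).Prime) ∧ ((m - k).Prime ∧ (m + k).Prime) then (1 : ℝ) else 0) := by
          rw [sum_comm]
          apply sum_congr rfl
          intro j _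
          rw [sum_comm]
      _ = _ := by
          apply sum_congr rfl
          intro j _
          apply sum_congr rfl
          intro k _
          rw [card_filter]
          push_cast
          rfl
  rw [hsq]
  have hbound : ∀ j ∈ Icc 1 H, ∑ k ∈ Icc 1 H, (((Ioc a (a + L)).filter (fun m =>
        ((m - j).Prime ∧ (m + j).Prime) ∧ ((m - k).Prime ∧ (m + k).Prime))).card : ℝ) ≤
      C₂ * (L / Real.log L ^ 2) * Real.exp (C₂ * sg j) +
        C₄ * (L / Real.log L ^ 4) * (H * Real.exp (C₄ * sg j) + 6 * K₄ * H) := by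
    intro j hj
    have hj' := mem_Icc.1 hj
    have hstep : ∀ k ∈ Icc 1 H, (((Ioc a (a + L)).filter (fun m =>
        ((m - j).Prime ∧ (m + j).Prime) ∧ ((m - k).Prime ∧ (m + k).Prime))).card : ℝ) ≤
        (if k = j then C₂ * Real.exp (C₂ * sg j) * (L / Real.log L ^ 2) else 0) +
        C₄ * (L / Real.log L ^ 4) * (Real.exp (C₄ * sg j) + Real.exp (C₄ * sg k) +
          Real.exp (C₄ * sg ((j : ℤ) - k).natAbs) + Real.exp (C₄ * sg (j + k))) := by
      intro k hk
      have hk' := mem_Icc.1 hk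
      by_cases hjk : k = j
      · subst hjk
        rw [if_pos rfl]
        have t1 := h₂ L hL2 a k hk'.1 (by omega)
        have t2 : (((Ioc a (a + L)).filter (fun m =>
            ((m - k).Prime ∧ (m + k).Prime) ∧ ((m - k).Prime ∧ (m + k).Prime))).card : ℝ) ≤
            (((Ioc a (a + L)).filter (fun m => (m - k).Prime ∧ (m + k).Prime)).card : ℝ) := by
          rw [Nat.cast_le]
          apply card_le_card
          intro m hm
          rw [mem_filter] at hm ⊢
          exact ⟨hm.1, hm.2.1⟩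
        have t3 : 0 ≤ C₄ * (L / Real.log L ^ 4) * (Real.exp (C₄ * sg k) + Real.exp (C₄ * sg k) +
          Real.exp (C₄ * sg ((k : ℤ) - k).natAbs) + Real.exp (C₄ * sg (k + k))) := by positivity
        linarith
      · rw [if_neg hjk, zero_add]
        have t1 := h₄ L hL4 a j k hj'.1 hk'.1 (fun h => hjk h.symm) (by omega) (by omega)
        refine t1.trans (le_of_eq ?_)
        ring
    refine (sum_le_sum hstep).trans ?_
    rw [sum_add_distrib, sum_ite_eq' (Icc 1 H) j, if_pos hj, ← mul_sum]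
    have t5 := inner C₄ K₄ hK₄ k₄ H j hj
    have t6 : 0 ≤ C₄ * (L / Real.log L ^ 4) := by positivity
    have t7 := mul_le_mul_of_nonneg_left t5 t6
    have t8 : C₂ * Real.exp (C₂ * sg j) * (L / Real.log L ^ 2) =
      C₂ * (L / Real.log L ^ 2) * Real.exp (C₂ * sg j) := by ring
    rw [t8]
    linarith
  refine (sum_le_sum hbound).trans ?_
  rw [sum_add_distrib, ← mul_sum, ← mul_sum, sum_add_distrib, ← mul_sum, sum_const, Nat.card_Icc,
    nsmul_eq_mul, Nat.add_sub_cancel]
  have u1 := k₂ H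
  have u2 := k₄ H
  have u3 : C₂ * (L / Real.log L ^ 2) * ∑ i ∈ Icc 1 H, Real.exp (C₂ * sg i) ≤
      C₂ * (L / Real.log L ^ 2) * (K₂ * H) := mul_le_mul_of_nonneg_left u1 (by positivity)
  have u4 : C₄ * (L / Real.log L ^ 4) * (H * ∑ i ∈ Icc 1 H, Real.exp (C₄ * sg i) + H * (6 * K₄ * H)) ≤
      C₄ * (L / Real.log L ^ 4) * (7 * K₄ * H ^ 2) := by
    apply mul_le_mul_of_nonneg_left _ (by positivity)
    nlinarith
  refine (add_le_add u3 u4).trans ?_
  have v1 : (L : ℝ) / Real.log L ^ 2 * H = L * (H / Real.log L ^ 2) := by ring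
  have v2 : (L : ℝ) / Real.log L ^ 4 * H ^ 2 = L * (H ^ 2 / Real.log L ^ 4) := by ring
  have w1 : 0 ≤ (L : ℝ) * (H / Real.log L ^ 2) := by positivity
  have w2 : 0 ≤ (L : ℝ) * (H ^ 2 / Real.log L ^ 4) := by positivity
  calc C₂ * (L / Real.log L ^ 2) * (K₂ * H) + C₄ * (L / Real.log L ^ 4) * (7 * K₄ * H ^ 2)
      = C₂ * K₂ * (L * (H / Real.log L ^ 2)) + 7 * C₄ * K₄ * (L * (H ^ 2 / Real.log L ^ 4)) := by
        rw [← v1, ← v2]; ring
    _ ≤ (C₂ * K₂ + 7 * C₄ * K₄) * (L * (H / Real.log L ^ 2)) +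
        (C₂ * K₂ + 7 * C₄ * K₄) * (L * (H ^ 2 / Real.log L ^ 4)) := by
        apply add_le_add
        · apply mul_le_mul_of_nonneg_right _ w1
          have : 0 ≤ 7 * C₄ * K₄ := by positivity
          linarith
        · apply mul_le_mul_of_nonneg_right _ w2
          have : 0 ≤ C₂ * K₂ := by positivity
          linarith
    _ = _ := by ring

end Pool.Agent.Hx18.PQ
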