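import Pool.Agent.Helper91K1.PQ.Stm

/-!
# PQ/FM: the first moment in an interval (written by helper18)
-/

set_option autoImplicit false

namespace Pool.Agent.Hx18.PQ

open Finset Filter Topology Pool.Agent.Helper91K1.PQ

/-- pairs of primes in the same window -/
def TT (a L H : ℕ) : Finset (ℕ × ℕ) :=
  (((Ioc a (a + L)).filter Nat.Prime) ×ˢ ((Ioc a (a + L)).filter Nat.Prime)).filter
    (fun x => x.1 < x.2 ∧ (x.1 - a - 1) / H = (x.2 - a - 1) / H)

lemma TT_le {a L H : ℕ} (ha : 2 ≤ a) (hH : 0 < H) :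
    (TT a L H).card ≤ ∑ m ∈ Ioc a (a + L), rp H m := by
  unfold rp
  rw [← card_sigma]
  apply card_le_card_of_injOn (fun x : ℕ × ℕ => (⟨(x.1 + x.2) / 2, (x.2 - x.1) / 2⟩ : Σ _ : ℕ, ℕ))
  · rintro ⟨p, q⟩ hx
    rw [mem_coe] at hx
    unfold TT at hx
    rw [mem_filter, mem_product, mem_filter, mem_filter, mem_Ioc, mem_Ioc] at hx
    obtain ⟨⟨⟨hp1, hp⟩, ⟨hq1, hq⟩⟩, hpq, hw⟩ := hx
    simp only at hp1 hp hq1 hq hpq hw
    have hp2 : p % 2 = 1 := Nat.odd_iff.1 (hp.odd_of_ne_two (by omega))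
    have hq2 : q % 2 = 1 := Nat.odd_iff.1 (hq.odd_of_ne_two (by omega))
    have h1 := Nat.div_add_mod (p - a - 1) H
    have h2 := Nat.div_add_mod (q - a - 1) H
    have h3 := Nat.mod_lt (p - a - 1) hH
    have h4 := Nat.mod_lt (q - a - 1) hH
    rw [hw] at h1
    have h5 : q - p < H := by
      generalize H * ((q - a - 1) / H) = t at h1 h2
      omega
    have e1 : (p + q) / 2 - (q - p) / 2 = p := by omega
    have e2 : (p + q) / 2 + (q - p) / 2 = q := by omega
    rw [mem_coe, mem_sigma, mem_filter, mem_Icc, mem_Ioc]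
    simp only
    rw [e1, e2]
    exact ⟨⟨by omega, by omega⟩, ⟨by omega, by omega⟩, hp, hq⟩
  · rintro ⟨p, q⟩ hx ⟨p', q'⟩ hx' h
    rw [mem_coe] at hx hx'
    unfold TT at hx hx'
    rw [mem_filter, mem_product, mem_filter, mem_filter, mem_Ioc, mem_Ioc] at hx hx'
    obtain ⟨⟨⟨hp1, hp⟩, ⟨hq1, hq⟩⟩, hpq, hw⟩ := hx
    obtain ⟨⟨⟨hp1', hp'⟩, ⟨hq1', hq'⟩⟩, hpq', hw'⟩ := hx'
    simp only at hp1 hp hq1 hq hpq hp1' hp' hq1' hq' hpq'
    have hp2 : p % 2 = 1 := Nat.odd_iff.1 (hp.odd_of_ne_two (by omega))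
    have hq2 : q % 2 = 1 := Nat.odd_iff.1 (hq.odd_of_ne_two (by omega))
    have hp2' : p' % 2 = 1 := Nat.odd_iff.1 (hp'.odd_of_ne_two (by omega))
    have hq2' : q' % 2 = 1 := Nat.odd_iff.1 (hq'.odd_of_ne_two (by omega))
    simp only [Sigma.mk.injEq, heq_eq_eq] at h
    have e1 : p = p' := by omega
    have e2 : q = q' := by omega
    rw [e1, e2]

lemma cs (a L H : ℕ) (hL : 1 ≤ L) :
    (pb a L) ^ 2 ≤ ((L - 1) / H + 1) * (pb a L + 2 * (TT a L H).card) := by
  set S := (Ioc a (a + L)).filter Nat.Prime with hS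
  have hpb : pb a L = S.card := rfl
  set w : ℕ → ℕ := fun p => (p - a - 1) / H with hw
  set R := range ((L - 1) / H + 1) with hR
  have hmaps : ∀ p ∈ S, w p ∈ R := by
    intro p hp
    rw [hS, mem_filter, mem_Ioc] at hp
    rw [hR, mem_range, hw]
    have : (p - a - 1) / H ≤ (L - 1) / H := Nat.div_le_div_right (by omega)
    simp only
    omega
  have h1 : S.card = ∑ i ∈ R, (S.filter (fun p => w p = i)).card :=
    card_eq_sum_card_fiberwise (fun p hp => hmaps p hp)
  set Q := (S ×ˢ S).filter (fun x : ℕ × ℕ => w x.1 = w x.2) with hQ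
  have h2 : Q.card = ∑ i ∈ R, (Q.filter (fun x => w x.1 = i)).card :=
    card_eq_sum_card_fiberwise (fun x hx => by
      rw [mem_coe, hQ, mem_filter, mem_product] at hx
      exact hmaps _ hx.1.1)
  have h3 : ∀ i ∈ R, (Q.filter (fun x => w x.1 = i)).card = ((S.filter (fun p => w p = i)).card) ^ 2 := by
    intro i _
    rw [sq, ← card_product]
    congr 1
    ext ⟨p, q⟩
    rw [hQ]
    simp only [mem_filter (s := S), mem_filter (s := S ×ˢ S), mem_product,
      mem_filter (s := (S ×ˢ S).filter (fun x : ℕ × ℕ => w x.1 = w x.2))]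
    constructor
    · rintro ⟨⟨⟨h4, h5⟩, h6⟩, h7⟩
      exact ⟨⟨h4, h7⟩, h5, h6 ▸ h7⟩
    · rintro ⟨⟨h4, h7⟩, h5, h6⟩
      exact ⟨⟨⟨h4, h5⟩, h7.trans h6.symm⟩, h7⟩
  have h4 : S.card ^ 2 ≤ R.card * Q.card := by
    rw [h2, sum_congr rfl h3, h1]
    exact sq_sum_le_card_mul_sum_sq
  have h5 : Q.card ≤ S.card + 2 * (TT a L H).card := by
    have h6 : Q ⊆ (S.image (fun p => (p, p)) ∪ TT a L H) ∪ (TT a L H).image (fun x => (x.2, x.1)) := by
      rintro ⟨p, q⟩ hx
      rw [hQ, mem_filter, mem_product] at hx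
      obtain ⟨⟨hp, hq⟩, hpq⟩ := hx
      simp only at hp hq hpq
      rw [mem_union, mem_union]
      rcases lt_trichotomy p q with h7 | h7 | h7
      · left; right
        unfold TT
        rw [mem_filter, mem_product]
        exact ⟨⟨hp, hq⟩, h7, hpq⟩
      · left; left
        rw [mem_image]
        exact ⟨p, hp, by rw [h7]⟩
      · right
        rw [mem_image]
        refine ⟨(q, p), ?_, rfl⟩
        unfold TT
        rw [mem_filter, mem_product]
        exact ⟨⟨hq, hp⟩, h7, hpq.symm⟩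
    calc Q.card ≤ _ := card_le_card h6
      _ ≤ (S.image (fun p => (p, p)) ∪ TT a L H).card + ((TT a L H).image (fun x => (x.2, x.1))).card :=
          card_union_le _ _
      _ ≤ ((S.image (fun p => (p, p))).card + (TT a L H).card) +
            ((TT a L H).image (fun x => (x.2, x.1))).card := Nat.add_le_add_right (card_union_le _ _) _
      _ ≤ (S.card + (TT a L H).card) + (TT a L H).card :=
          Nat.add_le_add (Nat.add_le_add_right card_image_le _) card_image_le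
      _ = _ := by ring
  rw [hpb]
  refine h4.trans ?_
  rw [hR, card_range]
  exact Nat.mul_le_mul_left _ h5

theorem t_FM : S_FM := by
  intro c hc
  have hlim : Tendsto (fun L : ℕ => Real.log L) atTop atTop :=
    Real.tendsto_log_atTop.comp tendsto_natCast_atTop_atTop
  obtain ⟨L₁, hL₁⟩ := eventually_atTop.1 ((hlim.eventually (eventually_ge_atTop (4 / c))).and
    (eventually_ge_atTop 3))
  refine ⟨c ^ 2 / 8, by positivity, L₁, ?_⟩
  intro L hL a ha H hH1 hH2 hpb
  obtain ⟨hlogc, hL3⟩ := hL₁ L hL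
  have hL3' : (3 : ℝ) ≤ L := by exact_mod_cast hL3
  have hlog : 0 < Real.log L := Real.log_pos (by linarith)
  have hlc : 4 ≤ c * Real.log L := by
    rw [div_le_iff₀ hc] at hlogc
    linarith
  have hHpos : (0 : ℝ) < H := lt_of_lt_of_le (by positivity) hH1
  have hH0 : 0 < H := by exact_mod_cast hHpos
  have hHL : (H : ℝ) ≤ L := by exact_mod_cast hH2
  have h1 := TT_le (L := L) ha hH0
  have h2 := cs a L H (by omega)
  have h1' : ((TT a L H).card : ℝ) ≤ ∑ m ∈ Ioc a (a + L), (rp H m : ℝ) := by exact_mod_cast h1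
  refine le_trans ?_ h1'
  have h2' : (pb a L : ℝ) ^ 2 ≤ (((L - 1) / H + 1 : ℕ) : ℝ) * (pb a L + 2 * (TT a L H).card) := by
    exact_mod_cast h2
  have hW : (((L - 1) / H + 1 : ℕ) : ℝ) * H ≤ 2 * L := by
    have : ((L - 1) / H + 1) * H ≤ 2 * L := by
      have h3 : (L - 1) / H * H ≤ L - 1 := Nat.div_mul_le_self _ _
      rw [add_mul, one_mul]
      omega
    exact_mod_cast this
  generalize hn : (pb a L : ℝ) = n at *
  generalize ht : ((TT a L H).card : ℝ) = t at *
  have hn0 : 0 ≤ n := by rw [← hn]; positivity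
  have ht0 : 0 ≤ t := by rw [← ht]; positivity
  generalize hWW : (((L - 1) / H + 1 : ℕ) : ℝ) = W at *
  -- `n ^ 2 * H ≤ 2 * L * (n + 2 * t)`
  have h3 : n ^ 2 * H ≤ 2 * L * (n + 2 * t) := by
    calc n ^ 2 * H ≤ (W * (n + 2 * t)) * H := mul_le_mul_of_nonneg_right h2' hHpos.le
      _ = (W * H) * (n + 2 * t) := by ring
      _ ≤ 2 * L * (n + 2 * t) := mul_le_mul_of_nonneg_right hW (by positivity)
  -- `n * H ≥ 4 * L`
  have h4 : c * L ≤ n * Real.log L := by
    rwa [div_le_iff₀ hlog] at hpb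
  have h5 : 4 * (L : ℝ) ≤ n * H := by
    calc 4 * (L : ℝ) ≤ (c * Real.log L) * L := by nlinarith
      _ = (c * L) * Real.log L := by ring
      _ ≤ (n * Real.log L) * Real.log L := mul_le_mul_of_nonneg_right h4 hlog.le
      _ = n * Real.log L ^ 2 := by ring
      _ ≤ n * H := mul_le_mul_of_nonneg_left hH1 hn0
  have h6 : n ^ 2 * H ≤ 8 * L * t := by
    have : 2 * L * n * 2 ≤ n ^ 2 * H := by nlinarith
    nlinarith
  have h7 : (c * L) ^ 2 ≤ (n * Real.log L) ^ 2 := by
    apply pow_le_pow_left₀ (by positivity) h4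
  have hLpos : (0 : ℝ) < L := by linarith
  rw [div_le_iff₀ (by positivity)]
  -- `c ^ 2 / 8 * L * H ≤ t * log ^ 2`
  have h8 : (c * L) ^ 2 * H ≤ 8 * L * (t * Real.log L ^ 2) := by
    calc (c * L) ^ 2 * H ≤ (n * Real.log L) ^ 2 * H := mul_le_mul_of_nonneg_right h7 hHpos.le
      _ = (n ^ 2 * H) * Real.log L ^ 2 := by ring
      _ ≤ (8 * L * t) * Real.log L ^ 2 := mul_le_mul_of_nonneg_right h6 (by positivity)
      _ = _ := by ring
  have h9 : L * (c ^ 2 * L * H) ≤ L * (8 * (t * Real.log L ^ 2)) := by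
    calc L * (c ^ 2 * L * H) = (c * L) ^ 2 * H := by ring
      _ ≤ _ := h8
      _ = _ := by ring
  have h10 := le_of_mul_le_mul_left h9 hLpos
  linarith

end Pool.Agent.Hx18.PQ
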